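import Pool.Agent.H638.IB.Final

/-!
# Pseudo-orbits of the intersection body operator

The uniform convergence of the iterated intersection bodies (`Pool.Agent.H638.IB.UNI_final`) is
turned into a statement on pseudo-orbits: sequences of bodies `K j` for which `K (j + 1)` is close to
the intersection body of `K j` in the Banach-Mazur distance.
-/

set_option autoImplicit false

open MeasureTheory Set Filter Topology Metric
open scoped Pointwise RealInnerProductSpace ENNReal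

namespace Pool.Agent.J4H12.IBR

open Pool.Agent.H638.IB

/-- `K` is within the factor `l` of `L`, up to a linear map. -/
def R {n : ℕ} (l : ℝ) (K L : Set (E n)) : Prop :=
  ∃ T : E n ≃ₗ[ℝ] E n, L ⊆ T '' K ∧ T '' K ⊆ l • L

theorem body_zero {n : ℕ} {K : Set (E n)} (h : Body K) : (0 : E n) ∈ K := by
  obtain ⟨x, hx⟩ := h.int
  have hx := interior_subset hx
  have h1 := h.convex hx (h.neg x hx) (by norm_num : (0:ℝ) ≤ 1 / 2) (by norm_num : (0:ℝ) ≤ 1 / 2)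
    (by norm_num)
  simpa using h1

theorem smul_mono {n : ℕ} {L : Set (E n)} (h : Body L) {a b : ℝ} (ha : 0 ≤ a) (hab : a ≤ b) :
    a • L ⊆ b • L := by
  rcases eq_or_lt_of_le (ha.trans hab) with hb | hb
  · have ha0 : a = 0 := le_antisymm (hab.trans hb.symm.le) ha
    rw [ha0, ← hb]
  rintro _ ⟨x, hx, rfl⟩
  refine ⟨(a / b) • x, ?_, ?_⟩
  · have h1 := h.convex hx (body_zero h) (div_nonneg ha hb.le)
      (sub_nonneg.2 ((div_le_one hb).2 hab)) (by ring)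
    simpa using h1
  · show b • (a / b) • x = a • x
    rw [smul_smul, mul_div_cancel₀ _ hb.ne']

theorem R_refl {n : ℕ} (K : Set (E n)) : R 1 K K :=
  ⟨LinearEquiv.refl ℝ _, fun x hx => ⟨x, hx, rfl⟩, by
    rintro _ ⟨x, hx, rfl⟩
    exact ⟨x, hx, one_smul ℝ x⟩⟩

theorem R_mono {n : ℕ} {K L : Set (E n)} (hL : Body L) {a b : ℝ} (ha : 0 ≤ a) (hab : a ≤ b)
    (h : R a K L) : R b K L := by
  obtain ⟨T, h1, h2⟩ := h
  exact ⟨T, h1, h2.trans (smul_mono hL ha hab)⟩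

theorem R_trans {n : ℕ} {K L M : Set (E n)} {a b : ℝ} (h : R a K L) (h' : R b L M) :
    R (a * b) K M := by
  obtain ⟨T, h1, h2⟩ := h
  obtain ⟨S, h3, h4⟩ := h'
  refine ⟨T.trans S, ?_, ?_⟩
  · refine h3.trans ?_
    rintro _ ⟨x, hx, rfl⟩
    obtain ⟨y, hy, rfl⟩ := h1 hx
    exact ⟨y, hy, rfl⟩
  · rintro _ ⟨y, hy, rfl⟩
    obtain ⟨z, hz, hz'⟩ := h2 ⟨y, hy, rfl⟩
    obtain ⟨w, hw, hw'⟩ := h4 ⟨z, hz, rfl⟩
    refine ⟨w, hw, ?_⟩
    have e1 : b • w = S z := hw'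
    have e2 : a • z = T y := hz'
    show (a * b) • w = S (T y)
    rw [← e2, map_smul, ← e1, smul_smul]

/-- From the distance to the relation. -/
theorem R_of_bm {n : ℕ} {K L : Set (E n)} (hL : Body L) {l : ℝ} (h : bm K L < l)
    (hne : {l : ℝ | 1 ≤ l ∧ ∃ T : E n ≃ₗ[ℝ] E n, L ⊆ T '' K ∧ T '' K ⊆ l • L}.Nonempty) :
    R l K L := by
  obtain ⟨a, ha, hal⟩ := exists_lt_of_csInf_lt hne h
  obtain ⟨h1, T, h2, h3⟩ := ha
  exact R_mono hL (by linarith) hal.le ⟨T, h2, h3⟩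

theorem bm_le {n : ℕ} {K L : Set (E n)} {l : ℝ} (hl : 1 ≤ l) (h : R l K L) : bm K L ≤ l :=
  csInf_le ⟨1, fun _ hl => hl.1⟩ ⟨hl, h⟩

theorem one_le_bm {n : ℕ} {K L : Set (E n)} {l : ℝ} (hl : 1 ≤ l) (h : R l K L) : 1 ≤ bm K L :=
  le_csInf ⟨l, hl, h⟩ fun _ hl => hl.1

/-- Two bodies are at a finite distance. -/
theorem ne_bm {n : ℕ} {K L : Set (E n)} (hK : Body K) (hL : Body L) :
    {l : ℝ | 1 ≤ l ∧ ∃ T : E n ≃ₗ[ℝ] E n, L ⊆ T '' K ∧ T '' K ⊆ l • L}.Nonempty := by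
  obtain ⟨⟨r, R₁, hr, hR₁, hb, hb'⟩, -⟩ := GB_final K hK
  obtain ⟨⟨s, S₁, hs, hS₁, hc, hc'⟩, -⟩ := GB_final L hL
  -- `T = (S₁ / r)`
  have hq : S₁ / r ≠ 0 := (div_pos hS₁ hr).ne'
  let T : E n ≃ₗ[ℝ] E n := LinearEquiv.smulOfNeZero ℝ (E n) (S₁ / r) hq
  have hT : ∀ x, T x = (S₁ / r) • x := fun x => rfl
  let l : ℝ := max 1 (S₁ / r * R₁ / s)
  have hl1 : 1 ≤ l := le_max_left _ _
  refine ⟨l, hl1, T, ?_, ?_⟩
  · intro x hx
    refine ⟨(r / S₁) • x, hb ?_, ?_⟩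
    · have := hc' hx
      rw [mem_closedBall_zero_iff] at this ⊢
      rw [norm_smul, Real.norm_eq_abs, abs_of_pos (div_pos hr hS₁)]
      calc r / S₁ * ‖x‖ ≤ r / S₁ * S₁ := by gcongr
        _ = r := div_mul_cancel₀ _ hS₁.ne'
    · rw [hT, smul_smul]
      have : S₁ / r * (r / S₁) = 1 := by
        field_simp
      rw [this, one_smul]
  · rintro _ ⟨y, hy, rfl⟩
    have hl0 : 0 < l := by linarith
    refine ⟨l⁻¹ • T y, hc ?_, ?_⟩
    · have := hb' hy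
      rw [mem_closedBall_zero_iff] at this ⊢
      rw [hT, norm_smul, norm_smul, norm_inv, Real.norm_eq_abs, Real.norm_eq_abs,
        abs_of_pos hl0, abs_of_pos (div_pos hS₁ hr)]
      rw [inv_mul_le_iff₀ hl0]
      have h2 : S₁ / r * R₁ / s ≤ l := le_max_right _ _
      rw [div_le_iff₀ hs] at h2
      calc S₁ / r * ‖y‖ ≤ S₁ / r * R₁ := by gcongr
        _ ≤ l * s := h2
    · show l • l⁻¹ • T y = T y
      rw [smul_smul, mul_inv_cancel₀ hl0.ne', one_smul]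

theorem R_iff_bm {n : ℕ} {K L : Set (E n)} (hK : Body K) (hL : Body L) {l : ℝ} (h : bm K L < l) :
    R l K L := R_of_bm hL h (ne_bm hK hL)

theorem one_le_bm' {n : ℕ} {K L : Set (E n)} (hK : Body K) (hL : Body L) : 1 ≤ bm K L :=
  le_csInf (ne_bm hK hL) fun _ hl => hl.1

/-- The intersection body operator is Lipschitz for the logarithm of the distance. -/
theorem R_IB {N : ℕ} (hN : 1 ≤ N) {K L : Set (E (N + 1))} (hK : Body K) (hL : Body L) {l : ℝ}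
    (hl : 0 < l) (h : R l K L) : R (l ^ N) (IB K) (IB L) := by
  obtain ⟨T, h1, h2⟩ := h
  obtain ⟨S, hS, -, -⟩ := (ICOV_final hN K hK).1 T
  have hTK : Body (T '' K) := ((GS_final K hK).2 T).1
  have hlL : Body (l • L) := ((GS_final L hL).1 l hl).1
  refine ⟨S, ?_, ?_⟩
  · rw [← hS]
    exact (ICOV_final hN L hL).2.2 _ hTK h1
  · rw [← hS, ← (ICOV_final hN L hL).2.1 l hl]
    exact (ICOV_final hN _ hTK).2.2 _ hlL h2

/-- The exponents `1 + N + ... + N ^ (j - 1)`. -/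
def sN (N : ℕ) : ℕ → ℕ
  | 0 => 0
  | j + 1 => 1 + N * sN N j

theorem orbit {N : ℕ} (hN : 1 ≤ N) (K : ℕ → Set (E (N + 1))) (hK : ∀ j, Body (K j)) {q : ℝ}
    (hq : 0 < q) {M : ℕ} (h : ∀ j, j < M → R q (K (j + 1)) (IB (K j))) :
    ∀ j, j ≤ M → Body (IB^[j] (K 0)) ∧ R (q ^ sN N j) (K j) (IB^[j] (K 0)) := by
  intro j
  induction j with
  | zero =>
    intro _
    refine ⟨hK 0, ?_⟩
    simpa [sN] using R_refl (K 0)
  | succ j ih =>
    intro hj
    obtain ⟨h1, h2⟩ := ih (by omega)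
    rw [Function.iterate_succ_apply']
    refine ⟨(IBB_final hN _ h1).1, ?_⟩
    have h3 := R_IB hN (hK j) h1 (pow_pos hq _) h2
    have h4 := R_trans (h j (by omega)) h3
    have e : q * (q ^ sN N j) ^ N = q ^ sN N (j + 1) := by
      rw [sN, pow_add, pow_one, ← pow_mul, mul_comm N]
    rwa [e] at h4

theorem pow_near (s : ℕ) {ε : ℝ} (hε : 0 < ε) : ∃ δ : ℝ, 0 < δ ∧ (1 + δ) ^ s < 1 + ε := by
  have h1 : Tendsto (fun d : ℝ => (1 + d) ^ s) (𝓝 0) (𝓝 ((1 + 0) ^ s)) := by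
    apply Continuous.tendsto
    fun_prop
  rw [add_zero, one_pow] at h1
  have h2 := h1.eventually (gt_mem_nhds (show (1:ℝ) < 1 + ε by linarith))
  obtain ⟨r, hr, h3⟩ := Metric.eventually_nhds_iff.1 h2
  refine ⟨r / 2, by linarith, h3 ?_⟩
  rw [Real.dist_eq, sub_zero, abs_of_pos (by linarith)]
  linarith

/-- The uniform statement. -/
theorem uniform {n : ℕ} (hn : 3 ≤ n) {ε : ℝ} (hε : 0 < ε) : ∃ (δ : ℝ) (M : ℕ), 0 < δ ∧
    ∀ K : ℕ → Set (E n), (∀ j, Body (K j)) → (∀ j, j < M → bm (K (j + 1)) (IB (K j)) ≤ 1 + δ) →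
      R (1 + ε) (K M) (closedBall 0 1) := by
  obtain ⟨N, rfl⟩ : ∃ N, n = N + 1 := ⟨n - 1, by omega⟩
  have hN1 : 1 ≤ N := by omega
  -- `(1 + e) ^ 2 ≤ 1 + ε`
  obtain ⟨e, he, he2⟩ := pow_near 2 hε
  obtain ⟨M, hM⟩ := UNI_final N (by omega) e he
  obtain ⟨d, hd, hd2⟩ := pow_near (sN N M) he
  refine ⟨d / 2, M, by linarith, fun K hK h => ?_⟩
  have hR : ∀ j, j < M → R (1 + d) (K (j + 1)) (IB (K j)) := fun j hj =>
    R_iff_bm (hK _) (IBB_final hN1 _ (hK j)).1 (lt_of_le_of_lt (h j hj) (by linarith))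
  obtain ⟨h1, h2⟩ := orbit hN1 K hK (by linarith) hR M le_rfl
  obtain ⟨T, h3, h4⟩ := (hM M le_rfl (K 0) (hK 0)).2
  have h5 : R (1 + e) (IB^[M] (K 0)) (closedBall 0 1) :=
    ⟨T, h3, by rwa [Pool.Agent.H638.IB.smul_ball _ (by linarith)]⟩
  have h6 := R_trans h2 h5
  refine R_mono ball_body (by positivity) ?_ h6
  calc (1 + d) ^ sN N M * (1 + e) ≤ (1 + e) * (1 + e) := by gcongr
    _ = (1 + e) ^ 2 := by ring
    _ ≤ 1 + ε := he2.le

theorem uniform_all {n : ℕ} (hn : 3 ≤ n) {ε : ℝ} (hε : 0 < ε) : ∃ (δ : ℝ) (M : ℕ), 0 < δ ∧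
    ∀ (K : ℕ → Set (E n)) (m : ℕ), (∀ j, Body (K j)) → M ≤ m →
      (∀ j, j < m → bm (K (j + 1)) (IB (K j)) ≤ 1 + δ) → R (1 + ε) (K m) (closedBall 0 1) := by
  obtain ⟨δ, M, hδ, h⟩ := uniform hn hε
  refine ⟨δ, M, hδ, fun K m hK hm h1 => ?_⟩
  have h2 := h (fun j => K (m - M + j)) (fun j => hK _) fun j hj => by
    have := h1 (m - M + j) (by omega)
    exact this
  have e : m - M + M = m := by omega
  simpa only [e] using h2

theorem asymptotic {n : ℕ} (hn : 3 ≤ n) (K : ℕ → Set (E n)) (hK : ∀ j, Body (K j))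
    (h : Tendsto (fun j => bm (K (j + 1)) (IB (K j))) atTop (𝓝 1)) :
    Tendsto (fun j => bm (K j) (closedBall 0 1)) atTop (𝓝 1) := by
  rw [Metric.tendsto_atTop]
  intro ε hε
  obtain ⟨δ, M, hδ, h1⟩ := uniform hn (half_pos hε)
  obtain ⟨J, hJ⟩ := Filter.eventually_atTop.1
    (h.eventually (ge_mem_nhds (show (1:ℝ) < 1 + δ by linarith)))
  refine ⟨J + M, fun m hm => ?_⟩
  have h2 := h1 (fun j => K (m - M + j)) (fun j => hK _) fun j _ => hJ (m - M + j) (by omega)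
  have e : m - M + M = m := by omega
  simp only [e] at h2
  have h3 := bm_le (by linarith) h2
  have h4 := one_le_bm (by linarith) h2
  rw [Real.dist_eq, abs_lt]
  constructor <;> linarith

/-- Chain recurrence. -/
theorem chain {n : ℕ} (hn : 3 ≤ n) (K : Set (E n)) (hK : Body K)
    (h : ∀ δ : ℝ, 0 < δ → ∃ (r : ℕ) (L : ℕ → Set (E n)), 1 ≤ r ∧ (∀ j, j ≤ r → Body (L j)) ∧
      L 0 = K ∧ L r = K ∧ ∀ j, j < r → bm (L (j + 1)) (IB (L j)) ≤ 1 + δ) :
    ∃ T : E n ≃ₗ[ℝ] E n, K = T '' closedBall 0 1 := by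
  have key : ∀ ε : ℝ, 0 < ε → Near ε K := by
    intro ε hε
    obtain ⟨δ, M, hδ, h1⟩ := uniform_all hn hε
    obtain ⟨r, L, hr, hL, h0, hr', h2⟩ := h δ hδ
    have h3 := h1 (fun j => L (j % r)) (M * r) (fun j => hL _ (Nat.mod_lt j (by omega)).le)
      (Nat.le_mul_of_pos_right M hr) fun j _ => by
        show bm (L ((j + 1) % r)) (IB (L (j % r))) ≤ 1 + δ
        have hj : j % r < r := Nat.mod_lt j (by omega)
        rcases Nat.lt_or_ge (j % r + 1) r with h4 | h4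
        · have e : (j + 1) % r = j % r + 1 := by
            rw [Nat.add_mod]
            rw [Nat.mod_eq_of_lt (show 1 < r by omega)]
            exact Nat.mod_eq_of_lt h4
          rw [e]
          exact h2 _ hj
        · have h5 : j % r + 1 = r := by omega
          have e : (j + 1) % r = 0 := by
            have : j + 1 = r * (j / r) + r := by
              have := Nat.div_add_mod j r
              omega
            rw [this]
            simp
          rw [e, h0, ← hr']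
          have h6 := h2 _ hj
          rwa [h5] at h6
    simp only [Nat.mul_mod_left] at h3
    rw [h0] at h3
    obtain ⟨T, h4, h5⟩ := h3
    exact ⟨T, h4, by rwa [Pool.Agent.H638.IB.smul_ball _ (by linarith)] at h5⟩
  obtain ⟨N, rfl⟩ : ∃ N, n = N + 1 := ⟨n - 1, by omega⟩
  obtain ⟨T, hT⟩ := NELL_final N (by omega) K hK key
  refine ⟨T.symm, ?_⟩
  rw [← hT, ← image_comp]
  simp

/-- Only the bodies up to time `m` matter. -/
theorem cut {n : ℕ} {δ : ℝ} (hδ : 0 < δ) {m : ℕ} {K : ℕ → Set (E n)} (hK : ∀ j, j ≤ m → Body (K j)) :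
    ∃ L : ℕ → Set (E n), (∀ j, Body (L j)) ∧ ∀ j, j ≤ m → L j = K j := by
  classical
  refine ⟨fun j => if j ≤ m then K j else closedBall 0 1, fun j => ?_, fun j hj => if_pos hj⟩
  by_cases hj : j ≤ m
  · simpa only [if_pos hj] using hK j hj
  · simpa only [if_neg hj] using ball_body

theorem robust {n : ℕ} (hn : 3 ≤ n) {ε : ℝ} (hε : 0 < ε) : ∃ (δ : ℝ) (M : ℕ), 0 < δ ∧
    ∀ (K : ℕ → Set (E n)) (m : ℕ), (∀ j, j ≤ m → Body (K j)) → M ≤ m →
      (∀ j, j < m → bm (K (j + 1)) (IB (K j)) ≤ 1 + δ) → R (1 + ε) (K m) (closedBall 0 1) := by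
  obtain ⟨δ, M, hδ, h⟩ := uniform_all hn hε
  refine ⟨δ, M, hδ, fun K m hK hm h1 => ?_⟩
  obtain ⟨L, hL, hL'⟩ := cut hδ hK
  have h2 := h L m hL hm fun j hj => by
    rw [hL' j hj.le, hL' (j + 1) hj]
    exact h1 j hj
  rwa [hL' m le_rfl] at h2

theorem ell_IB {N : ℕ} (hN : 1 ≤ N) (T : E (N + 1) ≃ₗ[ℝ] E (N + 1)) :
    ∃ S : E (N + 1) ≃ₗ[ℝ] E (N + 1), IB (T '' closedBall 0 1) = S '' closedBall 0 1 := by
  obtain ⟨S, hS⟩ := EPRE_final hN (LinearEquiv.refl ℝ (E (N + 1)))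
  have hB : Body (S '' closedBall (0 : E (N + 1)) 1) := ((GS_final _ ball_body).2 S).1
  obtain ⟨S', h1, -, -⟩ := (ICOV_final hN _ hB).1 (S.symm.trans T)
  refine ⟨S', ?_⟩
  have e : (S.symm.trans T) '' (S '' closedBall (0 : E (N + 1)) 1) =
      T '' closedBall (0 : E (N + 1)) 1 := by
    rw [← image_comp]
    congr 1
    ext x
    simp
  rw [e, hS] at h1
  simpa using h1

theorem R_ell {n : ℕ} (T S : E n ≃ₗ[ℝ] E n) :
    R 1 (T '' closedBall 0 1) (S '' closedBall 0 1) := by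
  have e : (T.symm.trans S) '' (T '' closedBall (0 : E n) 1) = S '' closedBall (0 : E n) 1 := by
    rw [← image_comp]
    congr 1
    ext x
    simp
  exact ⟨T.symm.trans S, e.ge, by rw [e, one_smul]⟩

theorem iter_ell {N : ℕ} (hN : 1 ≤ N) (j : ℕ) :
    ∃ S : E (N + 1) ≃ₗ[ℝ] E (N + 1), IB^[j] (closedBall 0 1) = S '' closedBall 0 1 := by
  induction j with
  | zero => exact ⟨LinearEquiv.refl ℝ _, by simp⟩
  | succ j ih =>
    obtain ⟨S, hS⟩ := ih
    rw [Function.iterate_succ_apply', hS]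
    exact ell_IB hN S

theorem R_iter {N : ℕ} (hN : 1 ≤ N) {K : Set (E (N + 1))} (hK : Body K) {q : ℝ} (hq : 0 < q)
    (h : R q K (closedBall 0 1)) (j : ℕ) :
    R (q ^ N ^ j) (IB^[j] K) (IB^[j] (closedBall 0 1)) := by
  have hB : ∀ (L : Set (E (N + 1))), Body L → ∀ j, Body (IB^[j] L) := by
    intro L hL j
    induction j with
    | zero => exact hL
    | succ j ih =>
      rw [Function.iterate_succ_apply']
      exact (IBB_final hN _ ih).1
  induction j with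
  | zero => simpa using h
  | succ j ih =>
    rw [Function.iterate_succ_apply', Function.iterate_succ_apply']
    have := R_IB hN (hB K hK j) (hB _ ball_body j) (pow_pos hq _) ih
    rwa [← pow_mul, ← pow_succ] at this

/-- Stability under persistent perturbations. -/
theorem stable {n : ℕ} (hn : 3 ≤ n) {ε : ℝ} (hε : 0 < ε) : ∃ δ : ℝ, 0 < δ ∧
    ∀ (K : ℕ → Set (E n)) (m : ℕ), (∀ j, j ≤ m → Body (K j)) →
      bm (K 0) (closedBall 0 1) ≤ 1 + δ →
      (∀ j, j < m → bm (K (j + 1)) (IB (K j)) ≤ 1 + δ) → R (1 + ε) (K m) (closedBall 0 1) := by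
  obtain ⟨δ₁, M, hδ₁, h1⟩ := robust hn hε
  obtain ⟨N, rfl⟩ : ∃ N, n = N + 1 := ⟨n - 1, by omega⟩
  have hN1 : 1 ≤ N := by omega
  obtain ⟨d, hd, hd2⟩ := pow_near (∑ j ∈ Finset.range M, (sN N j + N ^ j)) hε
  refine ⟨min δ₁ (d / 2), lt_min hδ₁ (by linarith), fun K m hK h0 h2 => ?_⟩
  have hle1 : min δ₁ (d / 2) ≤ δ₁ := min_le_left _ _
  have hle2 : min δ₁ (d / 2) ≤ d / 2 := min_le_right _ _
  rcases le_or_gt M m with hm | hm
  · exact h1 K m hK hm fun j hj => (h2 j hj).trans (by linarith)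
  obtain ⟨L, hL, hL'⟩ := cut hδ₁ hK
  have hR0 : R (1 + d) (L 0) (closedBall 0 1) := by
    rw [hL' 0 (Nat.zero_le _)]
    exact R_iff_bm (hK 0 (Nat.zero_le _)) ball_body (lt_of_le_of_lt h0 (by linarith))
  have hR : ∀ j, j < m → R (1 + d) (L (j + 1)) (IB (L j)) := fun j hj => by
    refine R_iff_bm (hL _) (IBB_final hN1 _ (hL j)).1 ?_
    rw [hL' j hj.le, hL' (j + 1) hj]
    exact lt_of_le_of_lt (h2 j hj) (by linarith)
  obtain ⟨-, h4⟩ := orbit hN1 L hL (by linarith) hR m le_rfl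
  have h5 := R_iter hN1 (hL 0) (by linarith) hR0 m
  obtain ⟨S, hS⟩ := iter_ell hN1 m
  have h6 : R 1 (IB^[m] (closedBall (0 : E (N + 1)) 1)) (closedBall 0 1) := by
    rw [hS]
    have := R_ell S (LinearEquiv.refl ℝ (E (N + 1)))
    simpa using this
  have h7 := R_trans (R_trans h4 h5) h6
  rw [hL' m le_rfl, mul_one, ← pow_add] at h7
  refine R_mono ball_body (by positivity) ?_ h7
  refine le_trans (pow_le_pow_right₀ (by linarith) ?_) hd2.le
  exact Finset.single_le_sum (f := fun j => sN N j + N ^ j) (fun _ _ => Nat.zero_le _)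
    (Finset.mem_range.2 hm)

theorem ell_chain {n : ℕ} (hn : 3 ≤ n) (T : E n ≃ₗ[ℝ] E n) :
    bm (T '' closedBall 0 1) (IB (T '' closedBall 0 1)) ≤ 1 := by
  obtain ⟨N, rfl⟩ : ∃ N, n = N + 1 := ⟨n - 1, by omega⟩
  obtain ⟨S, hS⟩ := ell_IB (by omega : 1 ≤ N) T
  rw [hS]
  exact bm_le le_rfl (R_ell T S)

end Pool.Agent.J4H12.IBR
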